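import Pool.Agent.Run7.h192.AJ.Defs

/-!
# Algebraically trivial cycles: definitions
-/

open CategoryTheory Pool.Agent.H914 Pool.Agent.R903

universe u v w x

namespace Pool.Agent.Run7.h192.AJ

variable {k : Type u} [Field k] {𝒱 : VarClass k} {C : ChowTheory.{u, v} 𝒱}
  {W : WeilTheory.{u, v, w} C}

/-- The class `x` of codimension `i` on `X` is algebraically equivalent to zero: there are a curve
`c`, a divisor `w` of degree zero on `c` and a correspondence `Γ` of codimension `i` from `c` to `X`
with `x = Γ_* w`. -/
def AlgTriv (W : WeilTheory.{u, v, w} C) {X : 𝒱.Obj} (i : ℕ) (x : C.CH X) : Prop :=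
  ∃ (c : 𝒱.Obj) (Γ : C.CH (c.prod X)) (w : C.CH c),
    c.dim = 1 ∧ Codim C i Γ ∧ HomTriv W 1 w ∧ C.act Γ w = x

/-- Divisors which are homologically trivial are algebraically equivalent to zero. -/
def DivisorsAlgTriv (W : WeilTheory.{u, v, w} C) : Prop :=
  ∀ (X : 𝒱.Obj) (x : C.CH X), HomTriv W 1 x → AlgTriv W 1 x

/-- Poincaré reducibility. Let `Γ` be a correspondence of codimension `i` from a curve `c` to `X`.
There is a correspondence `p` from `c` to itself (the projector of the Jacobian onto an abelian
subvariety `B`) such that `Γ ∘ p` is homologically trivial, and for each divisor class `w` of degree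
zero on `c` with `AJ(Γ_* w) = 0` one has `AJ(w) = AJ(p_* w)`. (The abelian variety `B` is the
neutral component of the kernel of the homomorphism from the Jacobian of `c` to the intermediate
Jacobian of `X` given by `Γ`.) -/
def AJMap.Reducible (A : AJMap.{u, v, w, x} W) : Prop :=
  ∀ (c X : 𝒱.Obj) (i : ℕ) (Γ : C.CH (c.prod X)), c.dim = 1 → Codim C i Γ →
    ∃ p : C.CH (c.prod c), Codim C 1 p ∧ HomTriv W i (C.comp p Γ) ∧
      ∀ w, HomTriv W 1 w → A.Ker i (C.act Γ w) → A.Ker 1 (w - C.act p w)

/-- The formal properties of Abel–Jacobi maps, the injectivity of the Abel–Jacobi map for divisors,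
and Poincaré reducibility. -/
structure AJMap.Classical (A : AJMap.{u, v, w, x} W) : Prop where
  formal : A.Formal
  divisors : ∀ X, A.Injective X 1
  algTriv : DivisorsAlgTriv W
  reducible : A.Reducible

/-- The Abel–Jacobi map is injective on the classes of codimension `i` on `X` which are
algebraically equivalent to zero. -/
def AJMap.InjectiveOnAlg (A : AJMap.{u, v, w, x} W) (X : 𝒱.Obj) (i : ℕ) : Prop :=
  ∀ x : C.CH X, AlgTriv W i x → A.Ker i x → x = 0

/-- Homologically trivial correspondences of codimension `j` from `X` to `Y` kill the classes of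
codimension `i` on `X` which are algebraically equivalent to zero. -/
def KillAlg (W : WeilTheory.{u, v, w} C) (X Y : 𝒱.Obj) (i j : ℕ) : Prop :=
  ∀ (Γ : C.CH (X.prod Y)) (x : C.CH X), HomTriv W j Γ → AlgTriv W i x → C.act Γ x = 0

/-- The product of a class of codimension `i` which is algebraically equivalent to zero and a
homologically trivial class of codimension `j` on `V` is zero. -/
def ProductZero (W : WeilTheory.{u, v, w} C) (V : 𝒱.Obj) (i j : ℕ) : Prop :=
  ∀ x z : C.CH V, AlgTriv W i x → HomTriv W j z → x * z = 0

end Pool.Agent.Run7.h192.AJ
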