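import Pool.Agent.Run7.h192.AJ.Main
import Pool.Agent.Run7.h192.AJ.ADefs

/-!
# Algebraically trivial cycles and the Abel–Jacobi map
-/

set_option autoImplicit false

open CategoryTheory CategoryTheory.Limits AlgebraicGeometry Finset
open Pool.Agent.H914 Pool.Agent.H914.VarClass Pool.Agent.H914.VarClass.Obj Pool.Agent.R903
open Pool.Agent.R903.ChowTheory Pool.Agent.R903.WeilTheory Pool.Agent.Run7.h192.Murre

universe u v w x

namespace Pool.Agent.Run7.h192.AJ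

variable {k : Type u} [Field k] {𝒱 : VarClass k} {C : ChowTheory.{u, v} 𝒱}
  {W : WeilTheory.{u, v, w} C} {X Y Z V : 𝒱.Obj} {A : AJMap.{u, v, w, x} W}

lemma homTriv_comp {p q r : ℕ} {α : C.CH (X.prod Y)} {β : C.CH (Y.prod Z)}
    (hα : Codim C p α) (hβ : HomTriv W q β) (h : p + q = r + Y.dim) :
    HomTriv W r (C.comp α β) := by
  refine ⟨C.comp_mem hα hβ.1 h, cl_eq_zero_of_act W ?_⟩
  apply LinearMap.ext
  intro a
  rw [W.act_comp _ hβ.1, act_eq_zero_of_cl W hβ.2, LinearMap.zero_apply, LinearMap.zero_apply]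

lemma homTriv_pull (f : X ⟶ Y) {i : ℕ} {y : C.CH Y} (hy : HomTriv W i y) :
    HomTriv W i (C.pull f y) :=
  ⟨C.pull_mem _ hy.1, by rw [W.cl_pull, hy.2, map_zero]⟩

/-- the correspondence which acts as multiplication by `z` -/
lemma act_diagonal (z x : C.CH V) : C.act (C.span (𝟙 V) (𝟙 V) z) x = x * z := by
  rw [C.act_span, C.pull_id, C.push_id, mul_comm]

lemma homTriv_diagonal {j : ℕ} {z : C.CH V} (hz : HomTriv W j z) :
    HomTriv W (j + V.dim) (C.span (𝟙 V) (𝟙 V) z) := by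
  refine ⟨C.span_mem _ _ hz.1 (by omega), ?_⟩
  rw [ChowTheory.span, W.cl_push, hz.2, map_zero]

lemma algTriv_homTriv {i : ℕ} {x : C.CH X} (h : AlgTriv W i x) : HomTriv W i x := by
  obtain ⟨c, Γ, w, hc, hΓ, hw, rfl⟩ := h
  exact hw.act ⟨i, by omega, hΓ⟩

/-- (2) implies (5) -/
theorem killAlg_of (h : ∀ (c X : 𝒱.Obj) (i : ℕ), c.dim = 1 → ∀ (Γ : C.CH (c.prod X)) (w : C.CH c),
    HomTriv W i Γ → HomTriv W 1 w → C.act Γ w = 0) (X Y : 𝒱.Obj) (i j : ℕ) : KillAlg W X Y i j := by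
  rintro Γ x hΓ hx
  by_cases hij : i + j < X.dim
  · exact C.act_eq_zero hΓ.1 (algTriv_homTriv hx).1 hij
  obtain ⟨c, Γ', w, hc, hΓ', hw, rfl⟩ := hx
  rw [← C.act_comp]
  exact h c Y (i + j - X.dim) hc _ w (homTriv_comp hΓ' hΓ (by omega)) hw

lemma productZero_of {i j : ℕ} (h : KillAlg W V V i (j + V.dim)) : ProductZero W V i j := by
  intro x z hx hz
  rw [← act_diagonal]
  exact h _ x (homTriv_diagonal hz) hx

lemma ker_of_homTriv (hA : A.Formal) {c : 𝒱.Obj} (hc : c.dim = 1) {i : ℕ} {Γ : C.CH (c.prod X)}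
    {w : C.CH c} (hΓ : HomTriv W i Γ) (hw : HomTriv W 1 w) : A.Ker i (C.act Γ w) := by
  refine hA.weight c X 1 i Γ ⟨i, by omega, hΓ.1⟩ (fun l _ a _ => ?_) w hw
  rw [act_eq_zero_of_cl W hΓ.2, LinearMap.zero_apply]

/-- (2) implies (1) -/
theorem injectiveOnAlg_of (hA : A.Classical) (h : ∀ (c X : 𝒱.Obj) (i : ℕ), c.dim = 1 →
    ∀ (Γ : C.CH (c.prod X)) (w : C.CH c), HomTriv W i Γ → HomTriv W 1 w → C.act Γ w = 0)
    (X : 𝒱.Obj) (i : ℕ) : A.InjectiveOnAlg X i := by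
  rintro x ⟨c, Γ, w, hc, hΓ, hw, rfl⟩ hk
  obtain ⟨p, -, h1, h2⟩ := hA.reducible c X i Γ hc hΓ
  have h3 : w - C.act p w = 0 := hA.divisors c _ (h2 w hw hk)
  have h4 := h c X i hc _ w h1 hw
  rwa [C.act_comp, ← sub_eq_zero.1 h3] at h4

/-- from `Y × V` to `V` -/
lemma mul_eq_zero_of_prod (hP : C.Polarized) (Y V : 𝒱.Obj) {j r : ℕ} (h1 : j ≤ r)
    (h2 : r ≤ j + Y.dim) (h : ∀ x z : C.CH (Y.prod V), HomTriv W 1 x → HomTriv W r z → x * z = 0)
    {x z : C.CH V} (hx : HomTriv W 1 x) (hz : HomTriv W j z) : x * z = 0 := by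
  obtain ⟨D, hD, hdeg⟩ := hP Y
  have hpow : ∀ m, D ^ m ∈ C.gr Y m := by
    intro m
    induction m with
    | zero => rw [pow_zero]; exact C.one_mem Y
    | succ m ih => rw [pow_succ]; exact C.mul_mem ih hD
  have hz' : HomTriv W r (C.pull (fst Y V) (D ^ (r - j)) * C.pull (snd Y V) z) := by
    refine ⟨?_, by rw [W.cl_mul, (homTriv_pull (snd Y V) hz).2, mul_zero]⟩
    have := C.mul_mem (C.pull_mem (fst Y V) (hpow (r - j))) (C.pull_mem (snd Y V) hz.1)
    rwa [Nat.sub_add_cancel h1] at this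
  have h3 := h _ _ (homTriv_pull (snd Y V) hx) hz'
  have h4 : C.push (snd Y V) (C.pull (fst Y V) (D ^ (Y.dim - (r - j))) *
      (C.pull (snd Y V) x * (C.pull (fst Y V) (D ^ (r - j)) * C.pull (snd Y V) z))) =
      C.deg Y (D ^ Y.dim) • (x * z) := by
    have e : C.pull (fst Y V) (D ^ (Y.dim - (r - j))) *
        (C.pull (snd Y V) x * (C.pull (fst Y V) (D ^ (r - j)) * C.pull (snd Y V) z)) =
        C.pull (fst Y V) (D ^ Y.dim) * C.pull (snd Y V) (x * z) := by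
      have e2 : D ^ Y.dim = D ^ (Y.dim - (r - j)) * D ^ (r - j) := by
        rw [← pow_add]
        congr 1
        omega
      rw [e2, C.pull_mul, C.pull_mul]
      ring
    rw [e, C.push_mul, C.push_snd_pull_fst, Algebra.smul_def]
  rw [h3, mul_zero, map_zero] at h4
  exact (smul_eq_zero.1 h4.symm).resolve_left hdeg

/-- The equivalences for algebraically trivial cycles. -/
theorem alg_tfae (hA : A.Classical) (hP : C.Polarized) (hc : ∃ c : 𝒱.Obj, c.dim = 1)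
    (P : ℕ → ℕ → Prop) (hPW : ∀ N, ∃ n r, N ≤ r ∧ N + r ≤ n ∧ P n r) :
    [∀ (X : 𝒱.Obj) (i : ℕ), A.InjectiveOnAlg X i,
      ∀ (X Y : 𝒱.Obj) (i j : ℕ), KillAlg W X Y i j,
      ∀ (V : 𝒱.Obj) (i j : ℕ), ProductZero W V i j,
      ∀ (V : 𝒱.Obj) (r : ℕ), P V.dim r → ProductZero W V 1 r].TFAE := by
  have key : (∀ (V : 𝒱.Obj) (r : ℕ), P V.dim r → ProductZero W V 1 r) →
      ∀ (c X : 𝒱.Obj) (i : ℕ), c.dim = 1 → ∀ (Γ : C.CH (c.prod X)) (w : C.CH c),
        HomTriv W i Γ → HomTriv W 1 w → C.act Γ w = 0 := by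
    intro h c X i _ Γ w hΓ hw
    rw [C.act_apply]
    have h0 : C.pull (fst c X) w * Γ = 0 := by
      by_cases hi : (c.prod X).dim < i
      · have h1 : Γ ∈ C.gr (c.prod X) i := hΓ.1
        rw [C.gr_eq_bot _ i hi, Submodule.mem_bot] at h1
        rw [h1, mul_zero]
      · obtain ⟨n, r, h1, h2, h3⟩ := hPW ((c.prod X).dim + 1)
        obtain ⟨Y, hY⟩ := exists_dim hc (n - (c.prod X).dim) (by omega)
        have hd : (Y.prod (c.prod X)).dim = n := by
          rw [dim_prod, hY]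
          omega
        refine mul_eq_zero_of_prod hP Y (c.prod X) (r := r) (by omega) (by omega)
          (fun x z hx hz => h (Y.prod (c.prod X)) r (by rw [hd]; exact h3) x z
            (hA.algTriv _ x hx) hz) (homTriv_pull (fst c X) hw) hΓ
    rw [mul_comm, h0, map_zero]
  tfae_have 1 → 2 := fun h X Y i j => killAlg_of (fun c X i hc Γ w hΓ hw =>
    h X i _ ⟨c, Γ, w, hc, hΓ.1, hw, rfl⟩ (ker_of_homTriv hA.formal hc hΓ hw)) X Y i j
  tfae_have 2 → 3 := fun h V i j => productZero_of (h V V i (j + V.dim))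
  tfae_have 3 → 4 := fun h V r _ => h V 1 r
  tfae_have 4 → 1 := fun h X i => injectiveOnAlg_of hA (key h) X i
  tfae_finish

end Pool.Agent.Run7.h192.AJ
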