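import Pool.Agent.Run7.h192.AJ.Defs
import Pool.Agent.Run7.h192.Murre.Dee

/-!
# Abel–Jacobi maps and self-correspondences
-/

set_option autoImplicit false

open CategoryTheory CategoryTheory.Limits AlgebraicGeometry Finset
open Pool.Agent.H914 Pool.Agent.H914.VarClass Pool.Agent.H914.VarClass.Obj Pool.Agent.R903
open Pool.Agent.R903.ChowTheory Pool.Agent.R903.WeilTheory Pool.Agent.Run7.h192.Murre

universe u v w x

namespace Pool.Agent.Run7.h192.AJ

variable {k : Type u} [Field k] {𝒱 : VarClass k} {C : ChowTheory.{u, v} 𝒱}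
  {W : WeilTheory.{u, v, w} C} {X Y Z : 𝒱.Obj} {A : AJMap.{u, v, w, x} W}

lemma HomTriv.act {i j : ℕ} {γ : C.CH (X.prod Y)} (hγ : Shifts C i j γ) {x : C.CH X}
    (hx : HomTriv W i x) : HomTriv W j (C.act γ x) := by
  obtain ⟨p, hp, hγ⟩ := hγ
  exact ⟨C.act_mem hγ hx.1 hp, by rw [W.cl_act, hx.2, map_zero]⟩

lemma shifts_zero {γ : C.CH (X.prod X)} (hγ : Codim C X.dim γ) (i : ℕ) : Shifts C i i γ :=
  ⟨X.dim, rfl, hγ⟩

/-- from a product to a factor -/
theorem injective_of_prod (hA : A.Formal) (hP : C.Polarized) (X Y : 𝒱.Obj) {r i : ℕ} (h1 : i ≤ r)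
    (h2 : r ≤ i + Y.dim) (h : A.Injective (Y.prod X) r) : A.Injective X i := by
  obtain ⟨q, α, β, F⟩ := exists_factor_prod hP X Y (i := r - i) (by omega)
  intro x hx
  have hs : Shifts C i r α := ⟨_, by omega, F.hα⟩
  have h3 := h _ (hA.natural _ _ _ _ _ hs x hx)
  rw [← C.act_diagC x, ← F.comp, C.act_comp, h3, map_zero]

/-- a homologically trivial class is zero if a correspondence which fixes it kills `H^(2i-1)` -/
lemma eq_zero_of_fix (hA : A.Formal) {i : ℕ} (h : A.Injective X i) {γ : C.CH (X.prod X)}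
    (hγ : Codim C X.dim γ) (hk : KillsOdd W i γ) {x : C.CH X} (hx : HomTriv W i x)
    (hf : C.act γ x = x) : x = 0 := by
  have h1 := hA.weight X X i i γ (shifts_zero hγ i) hk x hx
  rw [hf] at h1
  exact h x h1

/-- the composition of homologically trivial correspondences is zero -/
theorem comp_eq_zero (hA : A.Formal) (h : A.Injective (X.prod X) X.dim) : SquareZero W X := by
  rintro γ δ h1 ⟨hδ, hδ0⟩
  have h2 : Codim C (X.prod X).dim (C.opL X δ) := C.opL_mem hδ
  have h3 := act_opL_zero (X := X) hδ (act_eq_zero_of_cl W hδ0)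
  have h4 := hA.weight _ _ X.dim X.dim _ (shifts_zero h2 _)
    (fun l _ a _ => by rw [h3, LinearMap.zero_apply]) γ h1
  have h6 := h _ h4
  rwa [C.act_opL] at h6

lemma noPhantoms_of (h : SquareZero W X) : W.NoPhantoms X := by
  intro e he hee h0
  have h0' : HomTriv W X.dim e := ⟨he, cl_eq_zero_of_act W (LinearMap.ext h0)⟩
  rw [← hee]
  exact h e e h0' h0'

/-- A block off the diagonal, or of a homologically trivial correspondence, is homologically
trivial. -/
lemma block_homTriv {π π' : ℕ → C.CH (X.prod X)} (hπ : W.IsCK X π) (hπ' : W.IsCK X π') {a b : ℕ}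
    {γ : C.CH (X.prod X)} (hγ : Codim C X.dim γ) (h1 : b ≠ a ∨ HomTriv W X.dim γ) :
    HomTriv W X.dim (C.comp (C.comp (π a) γ) (π' b)) := by
  refine ⟨comp_mem0 (comp_mem0 (hπ.mem a) hγ) (hπ'.mem b), cl_eq_zero_of_act W ?_⟩
  apply LinearMap.ext
  intro x
  rw [act_comp0 (hπ'.mem b), act_comp0 hγ, LinearMap.zero_apply]
  rcases h1 with h1 | h1
  · refine gr_induction (W.isInternal X)
      (p := fun x => W.act (π' b) (W.act γ (W.act (π a) x)) = 0) ?_ ?_ x
    · intro l x hx
      rw [hπ.proj a l x hx]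
      split_ifs with hl
      · rw [hπ'.proj b l _ (act_mem0 W hγ hx), if_neg (by omega)]
      · rw [map_zero, map_zero]
    · intro x y hx hy
      rw [map_add, map_add, map_add, hx, hy, add_zero]
  · rw [act_eq_zero_of_cl W h1.2, LinearMap.zero_apply, map_zero]

/-- the blocks of the correspondences with respect to two decompositions -/
theorem block_eq_zero (hA : A.Formal) (h : A.Injective (X.prod X) X.dim)
    {π π' : ℕ → C.CH (X.prod X)} (hπ : W.IsCK X π) (hπ' : W.IsCK X π') {a b : ℕ}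
    {γ : C.CH (X.prod X)} (hγ : Codim C X.dim γ) (h1 : b ≠ a ∨ HomTriv W X.dim γ)
    (h2 : b + 1 ≠ a) : C.comp (C.comp (π a) γ) (π' b) = 0 := by
  by_cases ha : 2 * X.dim < a
  · rw [hπ.eq_zero ha, C.zero_comp, C.zero_comp]
  have hCK := hπ.transp.prod hπ'
  refine eq_zero_of_fix hA h (hCK.mem (2 * X.dim - a + b)) ?_ (block_homTriv hπ hπ' hγ h1)
    (act_prodCK_block hπ hπ' (by omega) b γ)
  intro l hl c hc
  rw [hCK.proj _ l c hc, if_neg (by omega)]

lemma lengthOne_of (hA : A.Formal) (h : A.Injective (X.prod X) X.dim)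
    {π : ℕ → C.CH (X.prod X)} (hπ : W.IsCK X π) : LengthOne W π :=
  fun _ _ _ hγ h1 h2 => block_eq_zero hA h hπ hπ hγ h1 h2

lemma triangular_of (hA : A.Formal) (h : A.Injective (X.prod X) X.dim) : W.Triangular X :=
  fun _ _ hπ hπ' _ _ hab _ hγ => block_eq_zero hA h hπ hπ' hγ (Or.inl (by omega)) (by omega)

/-- the Chow groups of `X` -/
theorem twoSteps_of (hA : A.Formal) (h : ∀ i, A.Injective X i) {π : ℕ → C.CH (X.prod X)}
    (hπ : W.IsCK X π) : TwoSteps W π := by
  intro i j x hx h1 h2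
  have h3 : HomTriv W i (C.act (π j) x) := by
    refine ⟨C.act_mem (hπ.mem j) hx rfl, ?_⟩
    rcases h1 with h1 | h1
    · rw [W.cl_act, hπ.proj j _ _ (W.cl_mem hx), if_neg (by omega)]
    · rw [W.cl_act, h1.2, map_zero]
  refine eq_zero_of_fix hA (h i) (hπ.mem j) ?_ h3 (by rw [hπ.act_act, if_pos rfl])
  intro l hl a ha
  rw [hπ.proj j l a ha, if_neg (by omega)]

/-! ### the converse -/

/-- The decomposition of a correspondence in its blocks. -/
lemma sum_blocks {π : ℕ → C.CH (X.prod X)} (hπ : W.IsCK X π) (γ : C.CH (X.prod X)) :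
    γ = ∑ a ∈ range (2 * X.dim + 1), ∑ b ∈ range (2 * X.dim + 1),
      C.comp (C.comp (π a) γ) (π b) := by
  have h1 : ∀ a, ∑ b ∈ range (2 * X.dim + 1), C.comp (C.comp (π a) γ) (π b) = C.comp (π a) γ := by
    intro a
    rw [← C.comp_sum, hπ.sum, C.comp_diagC]
  simp only [h1]
  rw [← C.sum_comp, hπ.sum, C.diagC_comp]

theorem injective_of_steps (hA : A.Formal) {π : ℕ → C.CH (X.prod X)} (hπ : W.IsCK X π)
    (h1 : LengthOne W π) (h2 : A.InjectiveOnSteps π) : A.Injective (X.prod X) X.dim := by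
  intro γ hj
  rw [sum_blocks hπ γ]
  refine Finset.sum_eq_zero fun a ha => Finset.sum_eq_zero fun b hb => ?_
  by_cases hab : b + 1 = a
  · subst hab
    apply h2 b γ hj.1.1
    have h3 : Codim C (X.prod X).dim (C.tensor (C.transp (π (b + 1))) (π b)) :=
      C.tensor_mem (C.transp_mem (hπ.mem _)) (hπ.mem b)
    have h4 := hA.natural _ _ X.dim X.dim _ (shifts_zero h3 _) γ hj
    rwa [C.act_tensor] at h4
  · exact h1 a b γ hj.1.1 (Or.inr hj.1) hab

end Pool.Agent.Run7.h192.AJ
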