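import Pool.Agent.R903.MurreDefs

/-!
# Abel–Jacobi maps: definitions
-/

open CategoryTheory Pool.Agent.H914 Pool.Agent.R903

universe u v w x

namespace Pool.Agent.Run7.h192.AJ

/-- The operator `T` is zero on `S`. -/
def IsZeroOn {K : Type w} [Field K] {V V' : Type w} [AddCommGroup V] [Module K V] [AddCommGroup V']
    [Module K V'] (S : Submodule K V) (T : V →ₗ[K] V') : Prop :=
  ∀ a ∈ S, T a = 0

/-- `f` is additive on the elements with the property `P`. -/
def IsAdditiveOn {V : Type v} {J : Type x} [AddCommGroup V] [AddCommGroup J] (P : V → Prop)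
    (f : V → J) : Prop :=
  ∀ a b, P a → P b → f (a + b) = f a + f b

variable {k : Type u} [Field k] {𝒱 : VarClass k}

/-- The class `x` has codimension `i`. -/
def Codim (C : ChowTheory.{u, v} 𝒱) {X : 𝒱.Obj} (i : ℕ) (x : C.CH X) : Prop :=
  x ∈ C.gr X i

/-- The correspondence `γ` maps classes of codimension `i` on `X` to classes of codimension `j` on
`Y`. -/
def Shifts (C : ChowTheory.{u, v} 𝒱) {X Y : 𝒱.Obj} (i j : ℕ) (γ : C.CH (X.prod Y)) : Prop :=
  ∃ p, i + p = j + X.dim ∧ Codim C p γ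

variable {C : ChowTheory.{u, v} 𝒱}

/-- `x` is a homologically trivial class of codimension `i`. -/
def HomTriv (W : WeilTheory.{u, v, w} C) {X : 𝒱.Obj} (i : ℕ) (x : C.CH X) : Prop :=
  Codim C i x ∧ W.cl X x = 0

/-- The correspondence `γ` acts as zero on `H^(2i - 1)(X)`. -/
def KillsOdd (W : WeilTheory.{u, v, w} C) {X Y : 𝒱.Obj} (i : ℕ) (γ : C.CH (X.prod Y)) : Prop :=
  ∀ l, l + 1 = 2 * i → IsZeroOn (W.gr X l) (W.act γ)

/-- Abel–Jacobi maps: abelian groups `J X i` and maps `aj X i`, which are of interest on the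
homologically trivial classes of codimension `i` only. -/
structure AJMap (W : WeilTheory.{u, v, w} C) where
  /-- the group in which the Abel–Jacobi map for the codimension `i` takes its values -/
  J : 𝒱.Obj → ℕ → Type x
  grp : ∀ X i, AddCommGroup (J X i)
  /-- the Abel–Jacobi map -/
  aj : ∀ (X : 𝒱.Obj) (i : ℕ), C.CH X → J X i

attribute [instance] AJMap.grp

variable {W : WeilTheory.{u, v, w} C}

/-- `x` is a homologically trivial class of codimension `i` in the kernel of the Abel–Jacobi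
map. -/
def AJMap.Ker (A : AJMap.{u, v, w, x} W) {X : 𝒱.Obj} (i : ℕ) (x : C.CH X) : Prop :=
  HomTriv W i x ∧ A.aj X i x = 0

/-- The formal properties of Abel–Jacobi maps: they are additive on the homologically trivial
classes; `AJ(γ_* x) = 0` if `AJ(x) = 0`; and `AJ(γ_* x) = 0` if the correspondence `γ` acts as zero
on `H^(2i - 1)(X)`, where `i` is the codimension of the homologically trivial class `x`. -/
structure AJMap.Formal (A : AJMap.{u, v, w, x} W) : Prop where
  add : ∀ (X : 𝒱.Obj) (i : ℕ), IsAdditiveOn (HomTriv W i) (A.aj X i)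
  natural : ∀ (X Y : 𝒱.Obj) (i j : ℕ) (γ : C.CH (X.prod Y)), Shifts C i j γ →
    ∀ x, A.Ker i x → A.Ker j (C.act γ x)
  weight : ∀ (X Y : 𝒱.Obj) (i j : ℕ) (γ : C.CH (X.prod Y)), Shifts C i j γ →
    KillsOdd W i γ → ∀ x, HomTriv W i x → A.Ker j (C.act γ x)

/-- The Abel–Jacobi map is injective on the homologically trivial classes of codimension `i` on
`X`. -/
def AJMap.Injective (A : AJMap.{u, v, w, x} W) (X : 𝒱.Obj) (i : ℕ) : Prop :=
  ∀ x : C.CH X, A.Ker i x → x = 0

/-- The Künneth standard conjecture for `X`: the projectors of the cohomology of `X` onto its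
homogeneous parts are given by correspondences. -/
def KunnethC (W : WeilTheory.{u, v, w} C) (X : 𝒱.Obj) : Prop :=
  ∃ κ : ℕ → C.CH (X.prod X), ∀ j, Codim C X.dim (κ j) ∧ IsProjector (W.gr X) j (W.act (κ j))

/-- The block `π b ∘ γ ∘ π a`, an element of `Hom(h^a(X), h^b(X))`. -/
noncomputable def block (C : ChowTheory.{u, v} 𝒱) {X : 𝒱.Obj} (π : ℕ → C.CH (X.prod X)) (a b : ℕ)
    (γ : C.CH (X.prod X)) : C.CH (X.prod X) :=
  C.comp (C.comp (π a) γ) (π b)

/-- The Chow–Künneth decomposition `π` of `X` has length one: `Hom(h^a(X), h^b(X)) = 0` unless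
`b = a` or `b = a - 1`, and homologically trivial endomorphisms of `h^a(X)` are zero. -/
def LengthOne (W : WeilTheory.{u, v, w} C) {X : 𝒱.Obj} (π : ℕ → C.CH (X.prod X)) : Prop :=
  ∀ a b γ, Codim C X.dim γ → (b ≠ a ∨ HomTriv W X.dim γ) → b + 1 ≠ a → block C π a b γ = 0

/-- The Abel–Jacobi map is injective on `Hom(h^(a + 1)(X), h^a(X))`, for all `a`. -/
def AJMap.InjectiveOnSteps (A : AJMap.{u, v, w, x} W) {X : 𝒱.Obj} (π : ℕ → C.CH (X.prod X)) :
    Prop :=
  ∀ a γ, Codim C X.dim γ → A.Ker X.dim (block C π (a + 1) a γ) → block C π (a + 1) a γ = 0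

/-- The cycles of `X` for the Chow–Künneth decomposition `π`: `CH^i(h^j(X)) = 0` unless `j = 2i` or
`j = 2i - 1`, and `CH^i(h^(2i)(X))` contains no homologically trivial class. -/
def TwoSteps (W : WeilTheory.{u, v, w} C) {X : 𝒱.Obj} (π : ℕ → C.CH (X.prod X)) : Prop :=
  ∀ i j x, Codim C i x → (j ≠ 2 * i ∨ HomTriv W i x) → j + 1 ≠ 2 * i → C.act (π j) x = 0

/-- The composition of two homologically trivial correspondences of degree zero on `X` is zero. -/
def SquareZero (W : WeilTheory.{u, v, w} C) (X : 𝒱.Obj) : Prop :=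
  ∀ γ δ : C.CH (X.prod X), HomTriv W X.dim γ → HomTriv W X.dim δ → C.comp γ δ = 0

end Pool.Agent.Run7.h192.AJ
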