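import Pool.Agent.Run7.h192.AJ.Defs

/-!
# Powers of polarizations and the kernel of the Abel–Jacobi map: definitions
-/

open CategoryTheory Pool.Agent.H914 Pool.Agent.R903

universe u v w x

namespace Pool.Agent.Run7.h192.AJ

variable {k : Type u} [Field k] {𝒱 : VarClass k} {C : ChowTheory.{u, v} 𝒱}
  {W : WeilTheory.{u, v, w} C}

/-- `L` is a divisor class on `V` with nonzero top self-intersection number, for example an ample
one. -/
def IsPolarization (C : ChowTheory.{u, v} 𝒱) {V : 𝒱.Obj} (L : C.CH V) : Prop :=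
  Codim C 1 L ∧ C.deg V (L ^ V.dim) ≠ 0

/-- The Abel–Jacobi maps are injective on the homologically trivial cycles of dimension `l` on all
varieties. -/
def AJMap.InjectiveInDimension (A : AJMap.{u, v, w, x} W) (l : ℕ) : Prop :=
  ∀ (X : 𝒱.Obj) (i : ℕ), i + l = X.dim → A.Injective X i

/-- For all varieties `V` and all `r` with `Q (dim V) r`, all classes `z` of codimension `r` in the
kernel of the Abel–Jacobi map of `V` and all polarizations `L`, the class `L ^ (dim V - r - l) z`, of
dimension `l`, is zero. -/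
def AJMap.PowersKill (A : AJMap.{u, v, w, x} W) (l : ℕ) (Q : ℕ → ℕ → Prop) : Prop :=
  ∀ (V : 𝒱.Obj) (r : ℕ), Q V.dim r → ∀ L z : C.CH V, IsPolarization C L → A.Ker r z →
    L ^ (V.dim - r - l) * z = 0

end Pool.Agent.Run7.h192.AJ
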