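import Pool.Agent.Run7.h192.AJ.Pol
import Pool.Agent.Run7.h192.AJ.LDefs

/-!
# Powers of polarizations and the kernel of the Abel–Jacobi map
-/

set_option autoImplicit false

open CategoryTheory CategoryTheory.Limits AlgebraicGeometry Finset
open Pool.Agent.H914 Pool.Agent.H914.VarClass Pool.Agent.H914.VarClass.Obj Pool.Agent.R903
open Pool.Agent.R903.ChowTheory Pool.Agent.R903.WeilTheory Pool.Agent.Run7.h192.Murre

universe u v w x

namespace Pool.Agent.Run7.h192.AJ

variable {k : Type u} [Field k] {𝒱 : VarClass k} {C : ChowTheory.{u, v} 𝒱}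
  {W : WeilTheory.{u, v, w} C} {X Y Z V : 𝒱.Obj} {A : AJMap.{u, v, w, x} W}

lemma ker_mul (hA : A.Formal) {i s : ℕ} {y x : C.CH V} (hy : Codim C s y) (hx : A.Ker i x) :
    A.Ker (i + s) (y * x) := by
  have h1 := hA.natural V V i (i + s) (C.span (𝟙 V) (𝟙 V) y)
    ⟨s + V.dim, by omega, C.span_mem _ _ hy (by omega)⟩ x hx
  rwa [act_diagonal, mul_comm] at h1

lemma ker_prod (hA : A.Formal) {i s : ℕ} {y : C.CH Y} {x : C.CH X} (hy : Codim C s y)
    (hx : A.Ker i x) : A.Ker (i + s) (C.pull (fst Y X) y * C.pull (snd Y X) x) := by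
  have h1 := hA.natural X (Y.prod X) i (i + s)
    (C.span (snd Y X) (𝟙 _) (C.pull (fst Y X) y))
    ⟨s + X.dim, by omega, C.span_mem _ _ (C.pull_mem _ hy) (by omega)⟩ x hx
  rwa [C.act_span, C.push_id] at h1

/-- **Cycles of dimension `l`.** -/
theorem injectiveInDimension_iff (hA : A.Formal) (hP : C.Polarized) (hc : ∃ c : 𝒱.Obj, c.dim = 1)
    (l : ℕ) (Q : ℕ → ℕ → Prop) (h1 : ∀ n r, Q n r → r + l ≤ n) (h2 : ∀ N, ∃ n r, N ≤ r ∧ Q n r) :
    A.InjectiveInDimension l ↔ A.PowersKill l Q := by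
  constructor
  · intro h V r hQ L z hL hz
    have h3 := h1 _ _ hQ
    exact h V (r + (V.dim - r - l)) (by omega) _ (ker_mul hA (pow_gr hL.1 _) hz)
  · intro h X i hi x hx
    obtain ⟨n, r, h3, h4⟩ := h2 (X.dim + 1)
    have h5 := h1 _ _ h4
    obtain ⟨Y, hY⟩ := exists_dim hc (n - X.dim) (by omega)
    obtain ⟨D, hD, hdeg⟩ := hP Y
    obtain ⟨E, hE, hdegE⟩ := hP X
    have hd : (Y.prod X).dim = n := by
      rw [dim_prod, hY]
      omega
    have hz : A.Ker r (C.pull (fst Y X) (D ^ (r - i)) * C.pull (snd Y X) x) := by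
      have := ker_prod (Y := Y) hA (pow_gr hD (r - i)) hx
      rwa [Nat.add_sub_cancel' (by omega)] at this
    have h6 := h (Y.prod X) r (by rw [hd]; exact h4) _ _
      ⟨Submodule.add_mem _ (C.pull_mem (fst Y X) hD) (C.pull_mem (snd Y X) hE),
        deg_sum_pow W hD hdeg hE hdegE⟩ hz
    have h7 := push_pow_mul W hD E (s := (Y.prod X).dim - r - l) (m := r - i)
      (by rw [hd, hY]; omega) x
    rw [h6, mul_zero, map_zero] at h7
    exact (smul_eq_zero.1 h7.symm).resolve_left hdeg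

lemma injectiveInDimension_of_le (hA : A.Formal) (hP : C.Polarized)
    (hc : ∃ c : 𝒱.Obj, c.dim = 1) {l m : ℕ} (hlm : l ≤ m) (h : A.InjectiveInDimension m) :
    A.InjectiveInDimension l := by
  intro X i hi
  by_cases hm : l = m
  · exact h X i (by omega)
  obtain ⟨Y, hY⟩ := exists_dim hc (m - l) (by omega)
  exact injective_of_prod hA hP X Y le_rfl (Nat.le_add_right _ _)
    (h (Y.prod X) i (by rw [dim_prod, hY]; omega))

/-- **All cycles.** -/
theorem injective_iff_powers (hA : A.Formal) (hP : C.Polarized) (hc : ∃ c : 𝒱.Obj, c.dim = 1)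
    (Q : ℕ → ℕ → ℕ → Prop) (h1 : ∀ l n r, Q l n r → r + l ≤ n)
    (h2 : ∀ l N, ∃ n r, N ≤ r ∧ Q l n r) :
    (∀ (X : 𝒱.Obj) (i : ℕ), A.Injective X i) ↔ ∀ N, ∃ l ≥ N, A.PowersKill l (Q l) := by
  constructor
  · intro h N
    exact ⟨N, le_rfl, (injectiveInDimension_iff hA hP hc N (Q N) (h1 N) (h2 N)).1
      fun X i _ => h X i⟩
  · intro h X i
    by_cases hi : i ≤ X.dim
    · obtain ⟨l, hl, h3⟩ := h (X.dim - i)
      exact injectiveInDimension_of_le hA hP hc hl
        ((injectiveInDimension_iff hA hP hc l (Q l) (h1 l) (h2 l)).2 h3) X i (by omega)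
    · intro x hx
      have h1 : x ∈ C.gr X i := hx.1.1
      rwa [C.gr_eq_bot X i (by omega), Submodule.mem_bot] at h1

end Pool.Agent.Run7.h192.AJ
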