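import Pool.Agent.Run7.h192.AJ.Basic

/-!
# Lifting the Künneth projectors
-/

set_option autoImplicit false

open CategoryTheory CategoryTheory.Limits AlgebraicGeometry Finset
open Pool.Agent.H914 Pool.Agent.H914.VarClass Pool.Agent.H914.VarClass.Obj Pool.Agent.R903
open Pool.Agent.R903.ChowTheory Pool.Agent.R903.WeilTheory Pool.Agent.Run7.h192.Murre

universe u v w x

namespace Pool.Agent.Run7.h192.AJ

variable {k : Type u} [Field k] {𝒱 : VarClass k} {C : ChowTheory.{u, v} 𝒱}
  {W : WeilTheory.{u, v, w} C} {X Y Z : 𝒱.Obj} {A : AJMap.{u, v, w, x} W}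

/-- The action of the correspondences of degree zero on the cohomology. -/
noncomputable def acHom (W : WeilTheory.{u, v, w} C) (X : 𝒱.Obj) :
    R0 C X →+* Module.End W.K (W.H X) where
  toFun a := W.act (ud a)
  map_one' := LinearMap.ext fun x => ac_one x
  map_mul' a b := LinearMap.ext fun x => ac_mul a b x
  map_zero' := by rw [map_zero, W.act_zero]
  map_add' a b := by rw [map_add, W.act_add]

theorem hasCK_of_kunneth (hK : KunnethC W X)
    (hN : ∀ a : R0 C X, W.act (ud a) = 0 → IsNilpotent a) : W.HasCK X := by
  obtain ⟨κ, hκ⟩ := hK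
  set n := 2 * X.dim + 1 with hn
  let e : Fin n → Module.End W.K (W.H X) := fun j => W.act (κ j)
  have hval : ∀ (j : Fin n) (l : ℕ), ∀ a ∈ W.gr X l, e j a = if l = (j : ℕ) then a else 0 :=
    fun j l a ha => (hκ j).2 l a ha
  have hco : CompleteOrthogonalIdempotents e := by
    refine ⟨⟨fun i => ?_, fun i j hij => ?_⟩, ?_⟩
    · apply LinearMap.ext
      intro x
      refine gr_induction (W.isInternal X) (p := fun x => (e i * e i) x = e i x) ?_ ?_ x
      · intro l a ha
        rw [Module.End.mul_apply, hval i l a ha]
        split_ifs with hl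
        · rw [hval i l a ha, if_pos hl]
        · rw [map_zero]
      · intro x y hx hy
        rw [map_add, map_add, hx, hy]
    · change e i * e j = 0
      apply LinearMap.ext
      intro x
      refine gr_induction (W.isInternal X) (p := fun x => (e i * e j) x = (0 : Module.End W.K _) x)
        ?_ ?_ x
      · intro l a ha
        rw [Module.End.mul_apply, hval j l a ha, LinearMap.zero_apply]
        split_ifs with hl
        · rw [hval i l a ha, if_neg]
          intro h
          exact hij (Fin.ext (h.symm.trans hl))
        · rw [map_zero]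
      · intro x y hx hy
        rw [map_add, map_add, hx, hy]
    · apply LinearMap.ext
      intro x
      refine gr_induction (W.isInternal X)
        (p := fun x => (∑ i, e i) x = (1 : Module.End W.K _) x) ?_ ?_ x
      · intro l a ha
        rw [LinearMap.sum_apply, Module.End.one_apply]
        by_cases hl : l < n
        · rw [Finset.sum_eq_single ⟨l, hl⟩]
          · rw [hval _ l a ha, if_pos rfl]
          · intro b _ hb
            rw [hval b l a ha, if_neg]
            intro h
            exact hb (Fin.ext h.symm)
          · intro h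
            exact absurd (Finset.mem_univ _) h
        · rw [W.gr_eq_bot X l (by omega), Submodule.mem_bot] at ha
          rw [ha]
          simp
      · intro x y hx hy
        rw [map_add, map_add, hx, hy]
  have hker : ∀ a ∈ RingHom.ker (acHom W X), IsNilpotent a := fun a ha => hN a ha
  obtain ⟨e', h1, h2⟩ := CompleteOrthogonalIdempotents.lift_of_isNilpotent_ker (acHom W X) hker hco
    fun i => ⟨elt (κ i) (hκ i).1, rfl⟩
  have h3 : ∀ j, W.act (ud (e' j)) = e j := fun j => congrFun h2 j
  refine ⟨fun j => if h : j < n then ud (e' ⟨j, h⟩) else 0, ?_, ?_, ?_, ?_, ?_⟩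
  · intro j
    split_ifs
    · exact ud_mem _
    · exact Submodule.zero_mem _
  · intro j
    split_ifs with h
    · rw [← ud_mul, (h1.idem ⟨j, h⟩).eq]
    · exact C.comp_zero _
  · intro i j hij
    split_ifs with hi hj hj
    · rw [← ud_mul, h1.ortho (i := ⟨j, hj⟩) (j := ⟨i, hi⟩) (by
        intro h
        exact hij (congrArg Fin.val h).symm), map_zero]
    · exact C.comp_zero _
    · exact C.zero_comp _
    · exact C.comp_zero _
  · rw [← hn, Finset.sum_range fun j => if h : j < n then ud (e' ⟨j, h⟩) else 0]
    have h4 : ∀ i : Fin n, (if h : (i : ℕ) < n then ud (e' ⟨i, h⟩) else 0) = ud (e' i) := by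
      intro i
      rw [dif_pos i.2]
    simp only [h4]
    rw [← map_sum, h1.complete, ud_one]
  · intro j l a ha
    split_ifs with h hl hl
    · rw [h3, hval _ l a ha, if_pos hl]
    · rw [h3, hval _ l a ha, if_neg hl]
    · subst hl
      rw [W.gr_eq_bot X l (by omega), Submodule.mem_bot] at ha
      rw [ha, map_zero]
    · rw [W.act_zero, LinearMap.zero_apply]

lemma nil_of (h : SquareZero W X) (a : R0 C X) (ha : W.act (ud a) = 0) : IsNilpotent a := by
  refine ⟨2, ?_⟩
  rw [pow_two]
  apply ud_inj
  rw [ud_mul, map_zero]
  exact h _ _ ⟨ud_mem a, cl_eq_zero_of_act W ha⟩ ⟨ud_mem a, cl_eq_zero_of_act W ha⟩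

end Pool.Agent.Run7.h192.AJ
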