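import Pool.Agent.Run7.h192.AJ.Lift
import Pool.Agent.Run7.h192.Murre.MDefs

/-!
# Abel–Jacobi maps: one square decides
-/

set_option autoImplicit false

open CategoryTheory CategoryTheory.Limits AlgebraicGeometry Finset
open Pool.Agent.H914 Pool.Agent.H914.VarClass Pool.Agent.H914.VarClass.Obj Pool.Agent.R903
open Pool.Agent.R903.ChowTheory Pool.Agent.R903.WeilTheory Pool.Agent.Run7.h192.Murre

universe u v w x

namespace Pool.Agent.Run7.h192.AJ

variable {k : Type u} [Field k] {𝒱 : VarClass k} {C : ChowTheory.{u, v} 𝒱}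
  {W : WeilTheory.{u, v, w} C} {X Y Z : 𝒱.Obj} {A : AJMap.{u, v, w, x} W}

lemma injective_all (hA : A.Formal) (hP : C.Polarized) (h : A.Injective (X.prod X) X.dim) (i : ℕ) :
    A.Injective X i := by
  by_cases hi : i ≤ X.dim
  · exact injective_of_prod hA hP X X hi (by omega) h
  · intro x hx
    have h1 : x ∈ C.gr X i := hx.1.1
    rwa [C.gr_eq_bot X i (by omega), Submodule.mem_bot] at h1

lemma isTriangular_of (hT : W.Triangular X) {π : ℕ → C.CH (X.prod X)} (hπ : W.IsCK X π) :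
    C.IsTriangular π :=
  fun a b hab γ hγ => hT π π hπ hπ a b hab γ hγ

theorem kunnethC_of_hasCK (h : W.HasCK X) : KunnethC W X := by
  obtain ⟨π, hπ⟩ := h
  exact ⟨π, fun j => ⟨hπ.mem j, hπ.proj j⟩⟩

theorem selfDual_of (hA : A.Formal) (h : A.Injective (X.prod X) X.dim) (hK : KunnethC W X) :
    HasSelfDualCK W X := by
  obtain ⟨π, hπ⟩ := hasCK_of_kunneth hK (nil_of (comp_eq_zero hA h))
  have hT := isTriangular_of (triangular_of hA h) hπ
  exact exists_selfDual' fun j _ => splitting_of_triangular hπ hT j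

theorem steps_tfae (hA : A.Formal) (hK : KunnethC W X) :
    [A.Injective (X.prod X) X.dim,
      ∃ π, W.IsCK X π ∧ LengthOne W π ∧ A.InjectiveOnSteps π,
      W.HasCK X ∧ ∀ π, W.IsCK X π → LengthOne W π ∧ A.InjectiveOnSteps π].TFAE := by
  tfae_have 1 → 3 := by
    intro h
    refine ⟨hasCK_of_kunneth hK (nil_of (comp_eq_zero hA h)),
      fun π hπ => ⟨lengthOne_of hA h hπ, ?_⟩⟩
    intro a γ hγ hj
    exact h _ hj
  tfae_have 3 → 2 := by
    rintro ⟨⟨π, hπ⟩, h⟩
    exact ⟨π, hπ, h π hπ⟩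
  tfae_have 2 → 1 := by
    rintro ⟨π, hπ, h1, h2⟩
    exact injective_of_steps hA hπ h1 h2
  tfae_finish

theorem window (hA : A.Formal) (hP : C.Polarized) (hc : ∃ c : 𝒱.Obj, c.dim = 1)
    (P : ℕ → ℕ → Prop) (hPW : ∀ N, ∃ n r, N ≤ r ∧ N + r ≤ n ∧ P n r)
    (h : ∀ n r, P n r → ∀ Z : 𝒱.Obj, Z.dim = n → A.Injective Z r) (X : 𝒱.Obj) (i : ℕ) :
    A.Injective X i := by
  by_cases hi : i ≤ X.dim
  · obtain ⟨n, r, h1, h2, h3⟩ := hPW (X.dim + 1)
    obtain ⟨Y, hY⟩ := exists_dim hc (n - X.dim) (by omega)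
    exact injective_of_prod hA hP X Y (r := r) (by omega) (by omega)
      (h n r h3 (Y.prod X) (by rw [dim_prod, hY]; omega))
  · intro x hx
    have h1 : x ∈ C.gr X i := hx.1.1
    rwa [C.gr_eq_bot X i (by omega), Submodule.mem_bot] at h1

end Pool.Agent.Run7.h192.AJ
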