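import Pool.Agent.Run7.h192.AJ.Alg

/-!
# Polarizations of products
-/

set_option autoImplicit false

open CategoryTheory CategoryTheory.Limits AlgebraicGeometry Finset
open Pool.Agent.H914 Pool.Agent.H914.VarClass Pool.Agent.H914.VarClass.Obj Pool.Agent.R903
open Pool.Agent.R903.ChowTheory Pool.Agent.R903.WeilTheory Pool.Agent.Run7.h192.Murre

universe u v w x

namespace Pool.Agent.Run7.h192.AJ

variable {k : Type u} [Field k] {𝒱 : VarClass k} {C : ChowTheory.{u, v} 𝒱}
  {W : WeilTheory.{u, v, w} C} {X Y Z V : 𝒱.Obj} {A : AJMap.{u, v, w, x} W}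

lemma pow_gr {D : C.CH X} (hD : D ∈ C.gr X 1) (m : ℕ) : D ^ m ∈ C.gr X m := by
  induction m with
  | zero => rw [pow_zero]; exact C.one_mem X
  | succ m ih => rw [pow_succ]; exact C.mul_mem ih hD

lemma deg_low (W : WeilTheory.{u, v, w} C) {i : ℕ} {x : C.CH X} (hx : x ∈ C.gr X i)
    (h : i ≠ X.dim) : C.deg X x = 0 := by
  have h1 := W.tr_cl x
  rw [W.tr_eq_zero (W.cl_mem hx) (by omega)] at h1
  exact_mod_cast h1.symm

lemma deg_ext (W : WeilTheory.{u, v, w} C) (u : C.CH Y) (v : C.CH X) :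
    C.deg (Y.prod X) (C.pull (fst Y X) u * C.pull (snd Y X) v) = C.deg Y u * C.deg X v := by
  have h1 := W.tr_cl (C.pull (fst Y X) u * C.pull (snd Y X) v)
  rw [W.cl_mul, W.cl_pull, W.cl_pull, W.tr_prod, W.tr_cl, W.tr_cl] at h1
  exact_mod_cast h1.symm

/-- The sum of the pull-backs of polarizations is a polarization. -/
lemma deg_sum_pow (W : WeilTheory.{u, v, w} C) {D : C.CH Y} (hD : D ∈ C.gr Y 1)
    (h : C.deg Y (D ^ Y.dim) ≠ 0) {E : C.CH X} (hE : E ∈ C.gr X 1) (h' : C.deg X (E ^ X.dim) ≠ 0) :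
    C.deg (Y.prod X) ((C.pull (fst Y X) D + C.pull (snd Y X) E) ^ (Y.prod X).dim) ≠ 0 := by
  rw [dim_prod, add_pow, map_sum, Finset.sum_eq_single Y.dim]
  · rw [Nat.add_sub_cancel_left, ← map_pow, ← map_pow, ← nsmul_eq_mul', map_nsmul, deg_ext W,
      nsmul_eq_mul]
    refine mul_ne_zero ?_ (mul_ne_zero h h')
    exact_mod_cast (Nat.choose_pos (Nat.le_add_right _ _)).ne'
  · intro m _ hm
    rw [← map_pow, ← map_pow, ← nsmul_eq_mul', map_nsmul, deg_ext W, deg_low W (pow_gr hD m) hm,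
      zero_mul, smul_zero]
  · intro hn
    exact absurd (Finset.mem_range.2 (by omega)) hn

/-- multiplication with a power of a product polarization -/
lemma push_pow_mul (W : WeilTheory.{u, v, w} C) {D : C.CH Y} (hD : D ∈ C.gr Y 1) (E : C.CH X)
    {s m : ℕ} (hm : s + m ≤ Y.dim) (z : C.CH X) :
    C.push (snd Y X) (C.pull (fst Y X) (D ^ (Y.dim - s - m)) *
      ((C.pull (fst Y X) D + C.pull (snd Y X) E) ^ s *
        (C.pull (fst Y X) (D ^ m) * C.pull (snd Y X) z))) = C.deg Y (D ^ Y.dim) • z := by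
  rw [add_pow, Finset.sum_mul, Finset.mul_sum, map_sum, Finset.sum_eq_single s]
  · have e : C.pull (fst Y X) (D ^ (Y.dim - s - m)) *
        (C.pull (fst Y X) D ^ s * C.pull (snd Y X) E ^ (s - s) * ((s.choose s : ℕ) : C.CH _) *
          (C.pull (fst Y X) (D ^ m) * C.pull (snd Y X) z)) =
        C.pull (fst Y X) (D ^ Y.dim) * C.pull (snd Y X) z := by
      have e2 : D ^ Y.dim = D ^ (Y.dim - s - m) * D ^ s * D ^ m := by
        rw [← pow_add, ← pow_add]
        congr 1
        omega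
      rw [e2, C.pull_mul, C.pull_mul, Nat.choose_self, Nat.sub_self, pow_zero, Nat.cast_one,
        map_pow (C.pull (fst Y X)) D s]
      ring
    rw [e, C.push_mul, C.push_snd_pull_fst, Algebra.smul_def]
  · intro b hb hbs
    rw [Finset.mem_range] at hb
    have e : C.pull (fst Y X) (D ^ (Y.dim - s - m)) *
        (C.pull (fst Y X) D ^ b * C.pull (snd Y X) E ^ (s - b) * ((s.choose b : ℕ) : C.CH _) *
          (C.pull (fst Y X) (D ^ m) * C.pull (snd Y X) z)) =
        C.pull (fst Y X) (D ^ (Y.dim - s + b)) *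
          C.pull (snd Y X) (((s.choose b : ℕ) : C.CH X) * (E ^ (s - b) * z)) := by
      have e2 : D ^ (Y.dim - s + b) = D ^ (Y.dim - s - m) * D ^ b * D ^ m := by
        rw [← pow_add, ← pow_add]
        congr 1
        omega
      rw [e2, C.pull_mul, C.pull_mul, C.pull_mul, C.pull_mul, map_natCast,
        map_pow (C.pull (fst Y X)) D b, map_pow (C.pull (snd Y X)) E (s - b)]
      ring
    rw [e, C.push_mul, C.push_snd_pull_fst, deg_low W (pow_gr hD _) (by omega), map_zero,
      zero_mul]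
  · intro hn
    exact absurd (Finset.mem_range.2 (by omega)) hn

end Pool.Agent.Run7.h192.AJ
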