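import Pool.Agent.Run7.h192.AJ.Main

/-!
# Abel–Jacobi maps: one square decides, main statement
-/

set_option autoImplicit false

open Pool.Agent.H914 Pool.Agent.R903 Pool.Agent.Run7.h192.Murre

universe u v w x

namespace Pool.Agent.Run7.h192.AJ

variable {k : Type u} [Field k] {𝒱 : VarClass k} {C : ChowTheory.{u, v} 𝒱}
  {W : WeilTheory.{u, v, w} C} {A : AJMap.{u, v, w, x} W}

theorem square (hA : A.Formal) (hP : C.Polarized) :
    (∀ X : 𝒱.Obj, A.Injective (X.prod X) X.dim →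
      (∀ i, A.Injective X i) ∧ SquareZero W X ∧
        (KunnethC W X → W.HasCK X ∧ ∀ π, W.IsCK X π → TwoSteps W π)) ∧
    (∀ X : 𝒱.Obj, KunnethC W X →
      [A.Injective (X.prod X) X.dim,
        ∃ π, W.IsCK X π ∧ LengthOne W π ∧ A.InjectiveOnSteps π,
        W.HasCK X ∧ ∀ π, W.IsCK X π → LengthOne W π ∧ A.InjectiveOnSteps π].TFAE) ∧
    ((∀ X : 𝒱.Obj, KunnethC W X ∧ ∀ i, A.Injective X i) ↔
      ∀ X : 𝒱.Obj, ∃ π, W.IsCK X π ∧ LengthOne W π ∧ A.InjectiveOnSteps π) := by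
  refine ⟨fun X h => ⟨injective_all hA hP h, comp_eq_zero hA h,
    fun hK => ⟨hasCK_of_kunneth hK (nil_of (comp_eq_zero hA h)),
      fun π hπ => twoSteps_of hA (injective_all hA hP h) hπ⟩⟩,
    fun X hK => steps_tfae hA hK, fun h X => ?_, fun h X => ?_⟩
  · exact ((steps_tfae hA (h X).1).out 0 1).1 ((h (X.prod X)).2 X.dim)
  · obtain ⟨π, hπ, h1, h2⟩ := h X
    exact ⟨kunnethC_of_hasCK ⟨π, hπ⟩, injective_all hA hP (injective_of_steps hA hπ h1 h2)⟩

end Pool.Agent.Run7.h192.AJ
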